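import Mathlib

/-!
# The numerical inequality for complete multipartite graphs

`a` is the size of the smallest part, `k` the number of vertices, `m` the number of edges and
`n = k + m`. The inequality `n * C(n - k, a) > (n - a (k - a + 1) - 1) * C(n, a)`.
-/

set_option autoImplicit false

namespace Pool.Agent.Lib_helper62.CMP

/-! ### Bonferroni inequalities for binomial coefficients -/

theorem bonf1 (N A : ℕ) : ∀ k ≤ N + 1,
    (N + 1).choose (A + 1) ≤ (N + 1 - k).choose (A + 1) + k * N.choose A := by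
  intro k
  induction k with
  | zero => intro _; simp
  | succ k ih =>
    intro hk
    have h1 := ih (by omega)
    have h2 : N + 1 - k = (N - k) + 1 := by omega
    have h3 : N + 1 - (k + 1) = N - k := by omega
    have h4 : (N - k).choose A ≤ N.choose A := Nat.choose_le_choose A (Nat.sub_le N k)
    rw [h2, Nat.choose_succ_succ' (N - k) A] at h1
    rw [h3, Nat.add_mul, one_mul]
    omega

theorem bonf2 (N A : ℕ) : ∀ k ≤ N + 2,
    (N + 2 - k).choose (A + 2) + k * (N + 1).choose (A + 1) ≤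
      (N + 2).choose (A + 2) + k.choose 2 * N.choose A := by
  intro k
  induction k with
  | zero => intro _; simp
  | succ k ih =>
    intro hk
    have h1 := ih (by omega)
    have h2 : N + 2 - k = (N + 1 - k) + 1 := by omega
    have h3 : N + 2 - (k + 1) = N + 1 - k := by omega
    have h4 := bonf1 N A k (by omega)
    have h5 : (k + 1).choose 2 = k + k.choose 2 := by
      rw [Nat.choose_succ_succ', Nat.choose_one_right]
    have hp : (N + 1 - k + 1).choose (A + 2) = (N + 1 - k).choose (A + 1) +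
        (N + 1 - k).choose (A + 2) := Nat.choose_succ_succ' _ _
    rw [h2, hp] at h1
    rw [h3, h5, Nat.add_mul, one_mul, Nat.add_mul]
    omega

theorem bonf3 (N A : ℕ) : ∀ k ≤ N + 3,
    (N + 3).choose (A + 3) + k.choose 2 * (N + 1).choose (A + 1) ≤
      (N + 3 - k).choose (A + 3) + k * (N + 2).choose (A + 2) + k.choose 3 * N.choose A := by
  intro k
  induction k with
  | zero => intro _; simp
  | succ k ih =>
    intro hk
    have h1 := ih (by omega)
    have h2 : N + 3 - k = (N + 2 - k) + 1 := by omega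
    have h3 : N + 3 - (k + 1) = N + 2 - k := by omega
    have h4 := bonf2 N A k (by omega)
    have h5 : (k + 1).choose 2 = k + k.choose 2 := by
      rw [Nat.choose_succ_succ', Nat.choose_one_right]
    have h6 : (k + 1).choose 3 = k.choose 2 + k.choose 3 := Nat.choose_succ_succ' _ _
    have hp : (N + 2 - k + 1).choose (A + 3) = (N + 2 - k).choose (A + 2) +
        (N + 2 - k).choose (A + 3) := Nat.choose_succ_succ' _ _
    rw [h2, hp] at h1
    rw [h3, h5, h6, Nat.add_mul, Nat.add_mul, Nat.add_mul, one_mul]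
    omega

/-- The polynomial of the third Bonferroni inequality. -/
def gg (a k n : ℝ) : ℝ :=
  3 * (a * (a - 1)) * (n - 2) * (k * (k - 1) - 2 * (n - 1)) + 6 * (n - 1) * (n - 2) -
    a * (a - 1) * (a - 2) * (k * (k - 1) * (k - 2))

theorem choose_two_real (k : ℕ) : 2 * (k.choose 2 : ℝ) = k * (k - 1) := by
  rw [Nat.cast_choose_two]
  ring

theorem choose_three_real (k : ℕ) : 6 * (k.choose 3 : ℝ) = k * (k - 1) * (k - 2) := by
  induction k with
  | zero => simp
  | succ k ih =>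
    rw [Nat.choose_succ_succ']
    push_cast
    have := choose_two_real k
    linear_combination ih + 3 * this

theorem num_of_gg {a k n : ℕ} (ha : 3 ≤ a) (hn : a ≤ n) (hk : k ≤ n) (h : 0 < gg a k n) :
    ((n : ℝ) - a * (k - a + 1) - 1) * n.choose a < n * (n - k).choose a := by
  obtain ⟨A, rfl⟩ := Nat.exists_eq_add_of_le' ha
  obtain ⟨N, rfl⟩ := Nat.exists_eq_add_of_le' (le_trans ha hn)
  have h3 := bonf3 N A k hk
  have e1 := Nat.add_one_mul_choose_eq (N + 2) (A + 2)
  have e2 := Nat.add_one_mul_choose_eq (N + 1) (A + 1)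
  have e3 := Nat.add_one_mul_choose_eq N A
  have h3' : ((N + 3).choose (A + 3) : ℝ) + k.choose 2 * (N + 1).choose (A + 1) ≤
      (N + 3 - k).choose (A + 3) + k * (N + 2).choose (A + 2) + k.choose 3 * N.choose A := by
    exact_mod_cast h3
  have e1' : ((N : ℝ) + 3) * (N + 2).choose (A + 2) = (N + 3).choose (A + 3) * (A + 3) := by
    have : ((N + 2 + 1 : ℕ) : ℝ) * (N + 2).choose (A + 2) =
      (N + 2 + 1).choose (A + 2 + 1) * ((A + 2 + 1 : ℕ) : ℝ) := by exact_mod_cast e1
    push_cast at this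
    linear_combination this
  have e2' : ((N : ℝ) + 2) * (N + 1).choose (A + 1) = (N + 2).choose (A + 2) * (A + 2) := by
    have : ((N + 1 + 1 : ℕ) : ℝ) * (N + 1).choose (A + 1) =
      (N + 1 + 1).choose (A + 1 + 1) * ((A + 1 + 1 : ℕ) : ℝ) := by exact_mod_cast e2
    push_cast at this
    linear_combination this
  have e3' : ((N : ℝ) + 1) * N.choose A = (N + 1).choose (A + 1) * (A + 1) := by
    exact_mod_cast e3
  have hc : 0 < ((N + 3).choose (A + 3) : ℝ) := by
    exact_mod_cast Nat.choose_pos hn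
  have c2 := choose_two_real k
  have c3 := choose_three_real k
  set c : ℝ := ((N + 3).choose (A + 3) : ℝ) with hcdef
  set U : ℝ := ((N + 2).choose (A + 2) : ℝ)
  set W : ℝ := ((N + 1).choose (A + 1) : ℝ)
  set V : ℝ := (N.choose A : ℝ)
  set X : ℝ := ((N + 3 - k).choose (A + 3) : ℝ)
  have hN1 : (0 : ℝ) < (N : ℝ) + 1 := by positivity
  have hN2 : (0 : ℝ) < (N : ℝ) + 2 := by positivity
  have hN3 : (0 : ℝ) < (N : ℝ) + 3 := by positivity
  have hU : U = c * (A + 3) / (N + 3) := by field_simp; linarith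
  have hW : W = c * (A + 3) * (A + 2) / ((N + 3) * (N + 2)) := by
    have : W = U * (A + 2) / (N + 2) := by field_simp; linarith
    rw [this, hU]; field_simp
  have hV : V = c * (A + 3) * (A + 2) * (A + 1) / ((N + 3) * (N + 2) * (N + 1)) := by
    have : V = W * (A + 1) / (N + 1) := by field_simp; linarith
    rw [this, hW]; field_simp
  have hk2 : (k.choose 2 : ℝ) = k * (k - 1) / 2 := by linarith
  have hk3 : (k.choose 3 : ℝ) = k * (k - 1) * (k - 2) / 6 := by linarith
  have h4 : c + k * (k - 1) / 2 * W - k * U - k * (k - 1) * (k - 2) / 6 * V ≤ X := by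
    rw [hk2, hk3] at h3'
    linarith
  have h5 : ((N : ℝ) + 3) * (c + k * (k - 1) / 2 * W - k * U - k * (k - 1) * (k - 2) / 6 * V) -
      ((N + 3) - (A + 3) * (k - (A + 3) + 1) - 1) * c =
      c * gg ((A : ℝ) + 3) k ((N : ℝ) + 3) / (6 * (N + 2) * (N + 1)) := by
    rw [hU, hW, hV]
    unfold gg
    field_simp
    ring
  have h6 : 0 < c * gg ((A : ℝ) + 3) k ((N : ℝ) + 3) / (6 * (N + 2) * (N + 1)) := by
    push_cast at h
    positivity
  have h7 := mul_le_mul_of_nonneg_left h4 hN3.le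
  push_cast
  linarith

/-- concavity -/
theorem gg_concave {a k n n1 n2 : ℝ} (ha : 3 ≤ a) (h1 : n1 ≤ n) (h2 : n ≤ n2)
    (hg1 : 0 < gg a k n1) (hg2 : 0 < gg a k n2) : 0 < gg a k n := by
  have key : gg a k n * (n2 - n1) = gg a k n1 * (n2 - n) + gg a k n2 * (n - n1) +
      (6 * (a * (a - 1)) - 6) * ((n - n1) * (n2 - n) * (n2 - n1)) := by
    unfold gg; ring
  rcases eq_or_lt_of_le h1 with h | h
  · rw [← h]; exact hg1
  · have h3 : 0 < n2 - n1 := by linarith
    have h4 : 0 ≤ gg a k n1 * (n2 - n) := mul_nonneg hg1.le (by linarith)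
    have h5 : 0 < gg a k n2 * (n - n1) := mul_pos hg2 (by linarith)
    have h6 : 0 ≤ 6 * (a * (a - 1)) - 6 := by nlinarith
    have h7 : 0 ≤ (n - n1) * (n2 - n) * (n2 - n1) :=
      mul_nonneg (mul_nonneg (by linarith) (by linarith)) h3.le
    have h8 : 0 < gg a k n * (n2 - n1) := by
      rw [key]
      have := mul_nonneg h6 h7
      linarith
    by_contra h9
    push Not at h9
    have := mul_nonpos_of_nonpos_of_nonneg h9 h3.le
    linarith

theorem gg_low {s t : ℝ} (hs : 0 ≤ s) (ht : 0 ≤ t) :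
    0 < gg (s + 3) (3 * (s + 3) + t) ((s + 3 + 1) * (3 * (s + 3) + t)) := by
  have h : gg (s + 3) (3 * (s + 3) + t) ((s + 3 + 1) * (3 * (s + 3) + t)) =
      5340 + 6162 * t + 1212 * t ^ 2 + 66 * t ^ 3 + 6996 * s + 9701 * s * t + 1608 * s * t ^ 2 +
      67 * s * t ^ 3 + 4035 * s ^ 2 + 6267 * s ^ 2 * t + 789 * s ^ 2 * t ^ 2 +
      21 * s ^ 2 * t ^ 3 + 1395 * s ^ 3 + 2023 * s ^ 3 * t + 165 * s ^ 3 * t ^ 2 +
      2 * s ^ 3 * t ^ 3 + 291 * s ^ 4 + 315 * s ^ 4 * t + 12 * s ^ 4 * t ^ 2 + 27 * s ^ 5 +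
      18 * s ^ 5 * t := by
    unfold gg; ring
  rw [h]; positivity

theorem gg_high {s t : ℝ} (hs : 0 ≤ s) (ht : 0 ≤ t) :
    0 < gg (s + 3) (3 * (s + 3) + t)
      ((3 * (s + 3) + t) * ((3 * (s + 3) + t) - (s + 3) + 2) / 2) := by
  have h : 4 * gg (s + 3) (3 * (s + 3) + t)
      ((3 * (s + 3) + t) * ((3 * (s + 3) + t) - (s + 3) + 2) / 2) =
      21360 + 10716 * t + 2058 * t ^ 2 + 180 * t ^ 3 + 6 * t ^ 4 + 27984 * s + 10184 * s * t +
      1248 * s * t ^ 2 + 52 * s * t ^ 3 + 16140 * s ^ 2 + 4278 * s ^ 2 * t +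
      330 * s ^ 2 * t ^ 2 + 6 * s ^ 2 * t ^ 3 + 5580 * s ^ 3 + 1234 * s ^ 3 * t +
      84 * s ^ 3 * t ^ 2 + 2 * s ^ 3 * t ^ 3 + 1164 * s ^ 4 + 234 * s ^ 4 * t +
      12 * s ^ 4 * t ^ 2 + 108 * s ^ 5 + 18 * s ^ 5 * t := by
    unfold gg; ring
  have h2 : 0 < 4 * gg (s + 3) (3 * (s + 3) + t)
      ((3 * (s + 3) + t) * ((3 * (s + 3) + t) - (s + 3) + 2) / 2) := by
    rw [h]; positivity
  linarith

/-- three or more parts -/
theorem gg_three {a k m : ℕ} (ha : 3 ≤ a) (hk : 3 * a ≤ k) (h1 : a * k ≤ m)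
    (h2 : 2 * m + a * k ≤ k * k) : 0 < gg a k ((k : ℝ) + m) := by
  obtain ⟨s, rfl⟩ := Nat.exists_eq_add_of_le' ha
  obtain ⟨t, rfl⟩ := Nat.exists_eq_add_of_le hk
  have h1' : (((s + 3) * (3 * (s + 3) + t) : ℕ) : ℝ) ≤ m := by exact_mod_cast h1
  have h2' : ((2 * m + (s + 3) * (3 * (s + 3) + t) : ℕ) : ℝ) ≤
      (((3 * (s + 3) + t) * (3 * (s + 3) + t) : ℕ) : ℝ) := by exact_mod_cast h2
  push_cast at h1' h2' ⊢
  have hs : (0 : ℝ) ≤ s := Nat.cast_nonneg s
  have ht : (0 : ℝ) ≤ t := Nat.cast_nonneg t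
  refine gg_concave (by linarith) ?_ ?_ (gg_low hs ht) (gg_high hs ht)
  · nlinarith
  · nlinarith

/-- two parts, small -/
theorem gg_two {a b : ℕ} (ha : 3 ≤ a) (ha7 : a ≤ 7) (hb : a ≤ b) :
    0 < gg a ((a : ℝ) + b) ((a : ℝ) + b + a * b) := by
  obtain ⟨t, rfl⟩ := Nat.exists_eq_add_of_le hb
  have ht : (0 : ℝ) ≤ t := Nat.cast_nonneg t
  interval_cases a
  · have h : gg ((3 : ℕ) : ℝ) (((3 : ℕ) : ℝ) + ((3 + t : ℕ) : ℝ))
        (((3 : ℕ) : ℝ) + ((3 + t : ℕ) : ℝ) + ((3 : ℕ) : ℝ) * ((3 + t : ℕ) : ℝ)) =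
        66 * (t : ℝ) ^ 3 + 456 * t ^ 2 + 1050 * t + 840 := by
      unfold gg; push_cast; ring
    rw [h]; positivity
  · have h : gg ((4 : ℕ) : ℝ) (((4 : ℕ) : ℝ) + ((4 + t : ℕ) : ℝ))
        (((4 : ℕ) : ℝ) + ((4 + t : ℕ) : ℝ) + ((4 : ℕ) : ℝ) * ((4 + t : ℕ) : ℝ)) =
        156 * (t : ℝ) ^ 3 + 1338 * t ^ 2 + 3606 * t + 2892 := by
      unfold gg; push_cast; ring
    rw [h]; positivity
  · have h : gg ((5 : ℕ) : ℝ) (((5 : ℕ) : ℝ) + ((5 + t : ℕ) : ℝ))
        (((5 : ℕ) : ℝ) + ((5 + t : ℕ) : ℝ) + ((5 : ℕ) : ℝ) * ((5 + t : ℕ) : ℝ)) =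
        300 * (t : ℝ) ^ 3 + 3096 * t ^ 2 + 9672 * t + 7092 := by
      unfold gg; push_cast; ring
    rw [h]; positivity
  · have h : gg ((6 : ℕ) : ℝ) (((6 : ℕ) : ℝ) + ((6 + t : ℕ) : ℝ))
        (((6 : ℕ) : ℝ) + ((6 + t : ℕ) : ℝ) + ((6 : ℕ) : ℝ) * ((6 + t : ℕ) : ℝ)) =
        510 * (t : ℝ) ^ 3 + 6144 * t ^ 2 + 21666 * t + 11892 := by
      unfold gg; push_cast; ring
    rw [h]; positivity
  · have h : gg ((7 : ℕ) : ℝ) (((7 : ℕ) : ℝ) + ((7 + t : ℕ) : ℝ))
        (((7 : ℕ) : ℝ) + ((7 + t : ℕ) : ℝ) + ((7 : ℕ) : ℝ) * ((7 + t : ℕ) : ℝ)) =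
        798 * (t : ℝ) ^ 3 + 10968 * t ^ 2 + 42654 * t + 9840 := by
      unfold gg; push_cast; ring
    rw [h]; positivity

/-! ### two large parts -/

theorem pow_bound {s : ℕ} (hs : 7 ≤ s) : (s + 2) ^ s ≤ s ^ (s + 1) := by
  rcases Nat.lt_or_ge s 8 with h | h
  · have : s = 7 := by omega
    subst this
    norm_num
  · have h0 : (0 : ℝ) < s := by
      have : 0 < s := by omega
      exact_mod_cast this
    have h1 : (1 + 2 / (s : ℝ)) ^ s ≤ Real.exp 2 := by
      have h2 : 1 + 2 / (s : ℝ) ≤ Real.exp (2 / s) := by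
        have := Real.add_one_le_exp (2 / (s : ℝ))
        linarith
      calc (1 + 2 / (s : ℝ)) ^ s ≤ Real.exp (2 / s) ^ s := by
            apply pow_le_pow_left₀ (by positivity) h2
        _ = Real.exp 2 := by
            rw [← Real.exp_nat_mul]
            congr 1
            field_simp
    have h3 : Real.exp 2 ≤ 8 := by
      have h4 := Real.exp_one_lt_d9
      have h5 : Real.exp 2 = Real.exp 1 * Real.exp 1 := by
        rw [← Real.exp_add]; norm_num
      rw [h5]
      have h6 := Real.exp_pos 1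
      nlinarith
    have h8 : (8 : ℝ) ≤ s := by exact_mod_cast h
    have h9 : ((s : ℝ) + 2) ^ s ≤ (s : ℝ) ^ (s + 1) := by
      have e1 : ((s : ℝ) + 2) ^ s = (s : ℝ) ^ s * (1 + 2 / (s : ℝ)) ^ s := by
        rw [← mul_pow]
        congr 1
        field_simp
      rw [e1, pow_succ]
      apply mul_le_mul_of_nonneg_left _ (by positivity)
      linarith
    exact_mod_cast h9

theorem desc_bound {a b : ℕ} (hab : a ≤ b) :
    (a + b + a * b).descFactorial a * (a - 1) ^ a ≤ (a * b).descFactorial a * (a + 1) ^ a := by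
  rw [Nat.descFactorial_eq_prod_range, Nat.descFactorial_eq_prod_range]
  have h1 : ∀ c : ℕ, c ^ a = ∏ _i ∈ Finset.range a, c := by
    intro c; simp
  rw [h1, h1, ← Finset.prod_mul_distrib, ← Finset.prod_mul_distrib]
  apply Finset.prod_le_prod'
  intro i hi
  have hi' := Finset.mem_range.1 hi
  obtain ⟨j, rfl⟩ := Nat.exists_eq_add_of_lt hi'
  obtain ⟨d, rfl⟩ := Nat.exists_eq_add_of_le hab
  have h2 : i ≤ (i + j + 1) * (i + j + 1 + d) := by nlinarith [Nat.zero_le (i * j), Nat.zero_le (i * d)]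
  obtain ⟨e, he⟩ := Nat.exists_eq_add_of_le h2
  have h3 : i + j + 1 + (i + j + 1 + d) + (i + j + 1) * (i + j + 1 + d) - i =
      i + j + 1 + (i + j + 1 + d) + e := by omega
  have h4 : (i + j + 1) * (i + j + 1 + d) - i = e := by omega
  have h5 : i + j + 1 - 1 = i + j := by omega
  rw [h3, h4, h5]
  nlinarith

theorem num_two_large {a b : ℕ} (ha : 8 ≤ a) (hab : a ≤ b) :
    (b - 1) * (a + b + a * b).choose a < (a + b + a * b) * (a * b).choose a := by
  have h1 := desc_bound hab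
  rw [Nat.descFactorial_eq_factorial_mul_choose, Nat.descFactorial_eq_factorial_mul_choose,
    mul_assoc, mul_assoc] at h1
  have h2 := Nat.le_of_mul_le_mul_left h1 (Nat.factorial_pos a)
  have h3 : (a + 1) ^ (a - 1) ≤ (a - 1) ^ a := by
    have := pow_bound (s := a - 1) (by omega)
    have e1 : a - 1 + 2 = a + 1 := by omega
    have e2 : a - 1 + 1 = a := by omega
    rwa [e1, e2] at this
  have e3 : (a + 1) ^ a = (a + 1) ^ (a - 1) * (a + 1) := by
    rw [← pow_succ]
    congr 1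
    omega
  have h4 : (a + b + a * b).choose a * (a + 1) ^ (a - 1) ≤
      (a * b).choose a * ((a + 1) ^ (a - 1) * (a + 1)) := by
    rw [← e3]
    exact le_trans (Nat.mul_le_mul_left _ h3) h2
  have h5 : (a + b + a * b).choose a ≤ (a * b).choose a * (a + 1) := by
    have hp : 0 < (a + 1) ^ (a - 1) := by positivity
    refine Nat.le_of_mul_le_mul_right ?_ hp
    calc (a + b + a * b).choose a * (a + 1) ^ (a - 1) ≤
        (a * b).choose a * ((a + 1) ^ (a - 1) * (a + 1)) := h4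
      _ = (a * b).choose a * (a + 1) * (a + 1) ^ (a - 1) := by ring
  have h6 : 0 < (a * b).choose a := Nat.choose_pos (by nlinarith)
  obtain ⟨c, rfl⟩ : ∃ c, b = c + 1 := ⟨b - 1, by omega⟩
  have e4 : c + 1 - 1 = c := by omega
  rw [e4]
  calc c * (a + (c + 1) + a * (c + 1)).choose a ≤
      c * ((a * (c + 1)).choose a * (a + 1)) := Nat.mul_le_mul_left _ h5
    _ < (a + (c + 1) + a * (c + 1)) * (a * (c + 1)).choose a := by nlinarith

/-- The inequality in all cases. -/
theorem num_main {a k m : ℕ} (ha : 1 ≤ a) (h2 : 2 * m + a * k ≤ k * k)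
    (h : (2 * a ≤ k ∧ m = a * (k - a)) ∨ (3 * a ≤ k ∧ a * k ≤ m)) :
    (((k : ℝ) + m) - a * (k - a + 1) - 1) * (k + m).choose a < (k + m) * m.choose a := by
  have hk2 : 2 * a ≤ k := by omega
  have ham : a ≤ m := by
    rcases h with ⟨_, h⟩ | ⟨h, h'⟩
    · rw [h]
      have : 1 ≤ k - a := by omega
      nlinarith
    · nlinarith
  rcases Nat.lt_or_ge a 3 with ha3 | ha3
  · interval_cases a
    · simp only [Nat.choose_one_right, Nat.cast_one]
      push_cast
      have : (0 : ℝ) ≤ k := Nat.cast_nonneg k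
      have : (0 : ℝ) ≤ m := Nat.cast_nonneg m
      have hm1 : (1 : ℝ) ≤ m := by exact_mod_cast ham
      nlinarith
    · have e1 := choose_two_real (k + m)
      have e2 := choose_two_real m
      push_cast at e1 e2
      have h2' : 2 * (m : ℝ) + 2 * k ≤ k * k := by exact_mod_cast h2
      have hk4 : (4 : ℝ) ≤ k := by exact_mod_cast hk2
      have hm : (2 : ℝ) ≤ m := by exact_mod_cast ham
      have e3 : ((k + m).choose 2 : ℝ) = (k + m) * (k + m - 1) / 2 := by linarith
      have e4 : (m.choose 2 : ℝ) = m * (m - 1) / 2 := by linarith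
      rw [e3, e4]
      push_cast
      have hpos : (0 : ℝ) < (k + m) := by linarith
      have key : ((k : ℝ) + m - 2 * (k - 2 + 1) - 1) * (k + m - 1) < m * (m - 1) := by nlinarith
      have := mul_lt_mul_of_pos_left key hpos
      nlinarith
  · have hsub : k + m - k = m := by omega
    rcases h with ⟨_, hm⟩ | ⟨hk3, hm⟩
    · obtain ⟨b, rfl⟩ := Nat.exists_eq_add_of_le (show a ≤ k by omega)
      have hb : a ≤ b := by omega
      have e1 : a + b - a = b := by omega
      rw [e1] at hm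
      subst hm
      rcases Nat.lt_or_ge a 8 with ha8 | ha8
      · have h3 := gg_two ha3 (by omega) hb
        have h4 := num_of_gg (a := a) (k := a + b) (n := a + b + a * b) ha3 (by omega) (by omega)
          (by push_cast; exact h3)
        have e2 : a + b + a * b - (a + b) = a * b := by omega
        rw [e2] at h4
        push_cast at h4 ⊢
        exact h4
      · have h3 := num_two_large ha8 hb
        have h4 : (((b - 1) * (a + b + a * b).choose a : ℕ) : ℝ) <
          (((a + b + a * b) * (a * b).choose a : ℕ) : ℝ) := by exact_mod_cast h3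
        rw [Nat.cast_mul, Nat.cast_mul, Nat.cast_sub (by omega)] at h4
        push_cast at h4 ⊢
        have e2 : ((a : ℝ) + b + a * b - a * (a + b - a + 1) - 1) = b - 1 := by ring
        rw [e2]
        exact h4
    · have h3 := gg_three ha3 hk3 hm h2
      have h4 := num_of_gg (a := a) (k := k) (n := k + m) ha3 (by omega) (by omega)
        (by push_cast; exact h3)
      rw [hsub] at h4
      push_cast at h4 ⊢
      exact h4

end Pool.Agent.Lib_helper62.CMP
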