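import Mathlib
import Pool.Agent.Lib_helper62.CMP.Num

/-!
# Complete multipartite graphs in the complement of a triangle-free graph
-/

set_option autoImplicit false

namespace Pool.Agent.Lib_helper62.CMP

open Finset Classical

variable {V W : Type}

/-- the number of the neighbours in `S` -/
noncomputable def dg (G : SimpleGraph V) (S : Finset V) (x : V) : ℕ :=
  (S.filter (fun y => G.Adj x y)).card

/-- twice the number of the edges in `S` -/
noncomputable def e2 (G : SimpleGraph V) (S : Finset V) : ℕ := ∑ x ∈ S, dg G S x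

/-- an embedding of `G` on `S` into the complement of `H` on `T` -/
def Emb (G : SimpleGraph V) (H : SimpleGraph W) (S : Finset V) (T : Finset W) : Prop :=
  ∃ f : V → W, Set.InjOn f S ∧ (∀ x ∈ S, f x ∈ T) ∧
    ∀ x ∈ S, ∀ y ∈ S, G.Adj x y → ¬ H.Adj (f x) (f y)

theorem exists_inj [Nonempty W] {S : Finset V} {I : Finset W} (h : S.card ≤ I.card) :
    ∃ f : V → W, Set.InjOn f S ∧ ∀ x ∈ S, f x ∈ I := by
  obtain ⟨e⟩ := Function.Embedding.nonempty_of_card_le (α := S) (β := I) (by simpa using h)
  refine ⟨fun x => if h : x ∈ S then (e ⟨x, h⟩ : W) else Classical.arbitrary W, ?_, ?_⟩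
  · intro x hx y hy hxy
    have hx' : x ∈ S := hx
    have hy' : y ∈ S := hy
    simp only [dif_pos hx', dif_pos hy'] at hxy
    have h1 := e.injective (Subtype.ext hxy)
    exact congrArg Subtype.val h1
  · intro x hx
    simp only [dif_pos hx]
    exact (e ⟨x, hx⟩).2

theorem emb_mono {G : SimpleGraph V} {H : SimpleGraph W} {S : Finset V} {T T' : Finset W}
    (h : T ⊆ T') (he : Emb G H S T) : Emb G H S T' := by
  obtain ⟨f, h1, h2, h3⟩ := he
  exact ⟨f, h1, fun x hx => h (h2 x hx), h3⟩

theorem emb_indep [Nonempty W] {G : SimpleGraph V} {H : SimpleGraph W} {S : Finset V}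
    {I : Finset W} (hI : ∀ x ∈ I, ∀ y ∈ I, ¬ H.Adj x y) (h : S.card ≤ I.card) : Emb G H S I := by
  obtain ⟨f, h1, h2⟩ := exists_inj h
  exact ⟨f, h1, h2, fun x hx y hy _ => hI _ (h2 x hx) _ (h2 y hy)⟩

/-- the vertices of `T` that are neither in `P` nor adjacent to an element of `P` -/
noncomputable def unc (H : SimpleGraph W) (T P : Finset W) : Finset W :=
  T.filter (fun v => ∀ p ∈ P, v ≠ p ∧ ¬ H.Adj v p)

theorem average {H : SimpleGraph W} {T : Finset W} {k m a : ℕ} (hT : T.card = k + m)
    (hN : ∀ v ∈ T, dg H T v + 1 ≤ k)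
    (hnum : (((k : ℝ) + m) - a * (k - a + 1) - 1) * (k + m).choose a < (k + m) * m.choose a) :
    ∃ P ∈ T.powersetCard a, ((k : ℝ) + m) - a * (k - a + 1) - 1 < ((unc H T P).card : ℝ) := by
  by_contra hcon
  push Not at hcon
  have h1 : ∑ P ∈ T.powersetCard a, ((unc H T P).card : ℝ) ≤
      ∑ P ∈ T.powersetCard a, (((k : ℝ) + m) - a * (k - a + 1) - 1) := Finset.sum_le_sum hcon
  rw [Finset.sum_const, Finset.card_powersetCard, hT, nsmul_eq_mul] at h1
  have h2 : ∑ P ∈ T.powersetCard a, (unc H T P).card =
      ∑ v ∈ T, ((T.powersetCard a).filter (fun P => ∀ p ∈ P, v ≠ p ∧ ¬ H.Adj v p)).card := by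
    unfold unc
    simp only [Finset.card_filter]
    rw [Finset.sum_comm]
  have h3 : ∀ v ∈ T, m.choose a ≤
      ((T.powersetCard a).filter (fun P => ∀ p ∈ P, v ≠ p ∧ ¬ H.Adj v p)).card := by
    intro v hv
    have e1 : (T.powersetCard a).filter (fun P => ∀ p ∈ P, v ≠ p ∧ ¬ H.Adj v p) =
        (T.filter (fun p => v ≠ p ∧ ¬ H.Adj v p)).powersetCard a := by
      ext P
      simp only [Finset.mem_filter, Finset.mem_powersetCard]
      constructor
      · rintro ⟨⟨h4, h5⟩, h6⟩
        exact ⟨fun p hp => Finset.mem_filter.2 ⟨h4 hp, h6 p hp⟩, h5⟩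
      · rintro ⟨h4, h5⟩
        exact ⟨⟨fun p hp => (Finset.mem_filter.1 (h4 hp)).1, h5⟩,
          fun p hp => (Finset.mem_filter.1 (h4 hp)).2⟩
    rw [e1, Finset.card_powersetCard]
    apply Nat.choose_le_choose
    have e2 : T ⊆ insert v (T.filter (fun y => H.Adj v y)) ∪
        T.filter (fun p => v ≠ p ∧ ¬ H.Adj v p) := by
      intro y hy
      by_cases h4 : v = y
      · subst h4
        simp
      · by_cases h5 : H.Adj v y
        · simp [hy, h5]
        · simp [hy, h4, h5]
    have e3 := Finset.card_le_card e2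
    have e4 := Finset.card_union_le (insert v (T.filter (fun y => H.Adj v y)))
      (T.filter (fun p => v ≠ p ∧ ¬ H.Adj v p))
    have e5 := Finset.card_insert_le v (T.filter (fun y => H.Adj v y))
    have e6 := hN v hv
    unfold dg at e6
    omega
  have h4 : (k + m) * m.choose a ≤ ∑ P ∈ T.powersetCard a, (unc H T P).card := by
    rw [h2, ← hT, ← smul_eq_mul, ← Finset.sum_const]
    exact Finset.sum_le_sum h3
  have h5 : ((k : ℝ) + m) * m.choose a ≤ ∑ P ∈ T.powersetCard a, ((unc H T P).card : ℝ) := by
    exact_mod_cast h4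
  have h6 : (((k + m).choose a : ℕ) : ℝ) * (((k : ℝ) + m) - a * (k - a + 1) - 1) =
    (((k : ℝ) + m) - a * (k - a + 1) - 1) * (k + m).choose a := by ring
  linarith

/-- the vertices of `S` not adjacent to `u` -/
noncomputable def part (G : SimpleGraph V) (S : Finset V) (u : V) : Finset V :=
  S.filter (fun y => ¬ G.Adj u y)

theorem part_card (G : SimpleGraph V) (S : Finset V) (u : V) :
    (part G S u).card + dg G S u = S.card := by
  unfold part dg
  rw [add_comm]
  exact Finset.card_filter_add_card_filter_not (s := S) (fun y => G.Adj u y)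

/-- `S` spans `m` edges and embeds into the complement of `H` on any `|S| + m` vertices. -/
def Good (G : SimpleGraph V) (H : SimpleGraph W) (S : Finset V) : Prop :=
  ∃ m : ℕ, e2 G S = 2 * m ∧ ∀ T : Finset W, S.card + m ≤ T.card → Emb G H S T

theorem main {G : SimpleGraph V} {H : SimpleGraph W} [Nonempty W]
    (hH : ∀ a b c, H.Adj a b → H.Adj b c → ¬ H.Adj a c) :
    ∀ (k : ℕ) (S : Finset V), S.card = k →
      (∀ x ∈ S, ∀ y ∈ S, ∀ z ∈ S, ¬ G.Adj x y → ¬ G.Adj y z → ¬ G.Adj x z) → Good G H S := by
  intro k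
  induction k using Nat.strong_induction_on with
  | _ k ih =>
  intro S hS hG
  unfold Good
  rw [hS]
  rcases S.eq_empty_or_nonempty with rfl | hne
  · refine ⟨0, by simp [e2], fun T _ => ⟨fun _ => Classical.arbitrary W, ?_, ?_, ?_⟩⟩
    · simp
    · simp
    · simp
  obtain ⟨u, hu, hmin⟩ := Finset.exists_min_image S (fun u => (part G S u).card) hne
  set A := part G S u with hA
  have hAS : A ⊆ S := Finset.filter_subset _ _
  have huA : u ∈ A := by
    rw [hA, part, Finset.mem_filter]
    exact ⟨hu, G.loopless.irrefl u⟩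
  set a := A.card with ha
  have ha1 : 1 ≤ a := Finset.card_pos.2 ⟨u, huA⟩
  have hak : a ≤ k := hS ▸ Finset.card_le_card hAS
  -- adjacency with elements of `A`
  have hmA : ∀ y, y ∈ A ↔ y ∈ S ∧ ¬ G.Adj u y := by
    intro y
    rw [hA, part, Finset.mem_filter]
  have hAA : ∀ x ∈ A, ∀ y ∈ A, ¬ G.Adj x y := by
    intro x hx y hy
    exact hG x (hAS hx) u hu y (hAS hy) (fun h => ((hmA x).1 hx).2 h.symm) ((hmA y).1 hy).2
  have hAB : ∀ x ∈ A, ∀ y ∈ S, y ∉ A → G.Adj x y := by
    intro x hx y hy hyA
    by_contra hcon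
    exact hyA ((hmA y).2 ⟨hy, hG u hu x (hAS hx) y hy ((hmA x).1 hx).2 hcon⟩)
  have hBc : (S \ A).card = k - a := by
    rw [Finset.card_sdiff_of_subset hAS, hS]
  -- degrees
  have hdA : ∀ x ∈ A, dg G S x = k - a := by
    intro x hx
    rw [← hBc]
    unfold dg
    congr 1
    ext y
    rw [Finset.mem_filter, Finset.mem_sdiff]
    constructor
    · rintro ⟨h1, h2⟩
      exact ⟨h1, fun h3 => hAA x hx y h3 h2⟩
    · rintro ⟨h1, h2⟩
      exact ⟨h1, hAB x hx y h1 h2⟩
  have hdB : ∀ x ∈ S \ A, dg G S x = dg G (S \ A) x + a := by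
    intro x hx
    rw [Finset.mem_sdiff] at hx
    unfold dg
    have e1 : S.filter (fun y => G.Adj x y) = (S \ A).filter (fun y => G.Adj x y) ∪ A := by
      ext y
      simp only [Finset.mem_filter, Finset.mem_union, Finset.mem_sdiff]
      constructor
      · rintro ⟨h1, h2⟩
        by_cases h3 : y ∈ A
        · exact Or.inr h3
        · exact Or.inl ⟨⟨h1, h3⟩, h2⟩
      · rintro (⟨⟨h1, h3⟩, h2⟩ | h1)
        · exact ⟨h1, h2⟩
        · exact ⟨hAS h1, (hAB y h1 x hx.1 hx.2).symm⟩
    rw [e1, Finset.card_union_of_disjoint]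
    rw [Finset.disjoint_left]
    intro y hy hyA
    exact (Finset.mem_sdiff.1 (Finset.mem_filter.1 hy).1).2 hyA
  have he2 : e2 G S = e2 G (S \ A) + 2 * (a * (k - a)) := by
    unfold e2
    rw [← Finset.sum_sdiff hAS, Finset.sum_congr rfl hdA, Finset.sum_congr rfl hdB,
      Finset.sum_add_distrib, Finset.sum_const, Finset.sum_const, hBc, ← ha, smul_eq_mul,
      smul_eq_mul]
    ring
  obtain ⟨m', hm', hIH⟩ := ih (k - a) (by omega) (S \ A) hBc
    (fun x hx y hy z hz => hG x (Finset.mem_sdiff.1 hx).1 y (Finset.mem_sdiff.1 hy).1 z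
      (Finset.mem_sdiff.1 hz).1)
  rw [hBc] at hIH
  refine ⟨m' + a * (k - a), by rw [he2, hm']; ring, fun T hT => ?_⟩
  set m := m' + a * (k - a) with hm
  have he2m : e2 G S = 2 * m := by rw [he2, hm', hm]; ring
  -- shrink `T`
  obtain ⟨T', hT'T, hT'⟩ := Finset.exists_subset_card_eq hT
  apply emb_mono hT'T
  clear hT hT'T T
  -- a large independent set
  by_cases hN : ∃ v ∈ T', k ≤ dg H T' v
  · obtain ⟨v, hv, hvk⟩ := hN
    apply emb_mono (Finset.filter_subset (fun y => H.Adj v y) T')
    apply emb_indep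
    · intro x hx y hy
      exact hH x v y (Finset.mem_filter.1 hx).2.symm (Finset.mem_filter.1 hy).2 |> fun h => h
    · rw [hS]
      exact hvk
  push Not at hN
  by_cases hak' : a = k
  · -- no edges
    have hSA : A = S := Finset.eq_of_subset_of_card_le hAS (by omega)
    obtain ⟨f, h1, h2⟩ := exists_inj (S := S) (I := T') (by omega)
    exact ⟨f, h1, h2, fun x hx y hy hxy => absurd hxy (hAA x (hSA ▸ hx) y (hSA ▸ hy))⟩
  have hlt : a < k := by omega
  -- the numbers
  have hub : 2 * m + a * k ≤ k * k := by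
    have h1 : e2 G S ≤ k * (k - a) := by
      unfold e2
      rw [← hS, ← smul_eq_mul, ← Finset.sum_const]
      apply Finset.sum_le_sum
      intro x hx
      have h2 := part_card G S x
      have h3 := hmin x hx
      omega
    rw [he2m] at h1
    have h4 : k * (k - a) + a * k = k * k := by
      obtain ⟨c, hc⟩ := Nat.exists_eq_add_of_le hak
      rw [hc, Nat.add_sub_cancel_left]
      ring
    omega
  have hcase : (2 * a ≤ k ∧ m = a * (k - a)) ∨ (3 * a ≤ k ∧ a * k ≤ m) := by
    by_cases htwo : ∀ y ∈ S \ A, ∀ z ∈ S \ A, ¬ G.Adj y z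
    · left
      have h0 : m' = 0 := by
        have h1 : e2 G (S \ A) = 0 := by
          unfold e2
          apply Finset.sum_eq_zero
          intro x hx
          unfold dg
          rw [Finset.card_eq_zero, Finset.filter_eq_empty_iff]
          intro y hy
          exact htwo x hx y hy
        omega
      refine ⟨?_, by rw [hm, h0, zero_add]⟩
      obtain ⟨x, hx⟩ : (S \ A).Nonempty := by
        rw [← Finset.card_pos, hBc]
        omega
      have h1 := hmin x (Finset.mem_sdiff.1 hx).1
      have h2 := part_card G S x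
      have h3 := hdB x hx
      omega
    · right
      push Not at htwo
      obtain ⟨y, hy, z, hz, hyz⟩ := htwo
      rw [Finset.mem_sdiff] at hy hz
      have huy : G.Adj u y := hAB u huA y hy.1 hy.2
      have huz : G.Adj u z := hAB u huA z hz.1 hz.2
      -- two adjacent neighbours
      have key : ∀ x p q, x ∈ S → p ∈ S → q ∈ S → G.Adj x p → G.Adj x q → G.Adj p q →
          2 * a ≤ dg G S x := by
        intro x p q hx hp hq hxp hxq hpq
        have h1 : part G S p ∪ part G S q ⊆ S.filter (fun y => G.Adj x y) := by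
          intro w hw
          rw [Finset.mem_union, part, part, Finset.mem_filter, Finset.mem_filter] at hw
          rw [Finset.mem_filter]
          rcases hw with ⟨h2, h3⟩ | ⟨h2, h3⟩
          · refine ⟨h2, ?_⟩
            by_contra hcon
            exact hG x hx w h2 p hp hcon (fun h => h3 h.symm) hxp
          · refine ⟨h2, ?_⟩
            by_contra hcon
            exact hG x hx w h2 q hq hcon (fun h => h3 h.symm) hxq
        have h2 : Disjoint (part G S p) (part G S q) := by
          rw [Finset.disjoint_left]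
          intro w hw hw'
          rw [part, Finset.mem_filter] at hw hw'
          exact hG p hp w hw.1 q hq hw.2 (fun h => hw'.2 h.symm) hpq
        have h3 := Finset.card_le_card h1
        rw [Finset.card_union_of_disjoint h2] at h3
        have h4 := hmin p hp
        have h5 := hmin q hq
        unfold dg
        omega
      have hall : ∀ x ∈ S, 2 * a ≤ dg G S x := by
        intro x hx
        by_cases h1 : G.Adj x u
        · by_cases h2 : G.Adj x y
          · exact key x u y hx hu hy.1 h1 h2 huy
          · have h3 : G.Adj x z := by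
              by_contra hcon
              exact hG y hy.1 x hx z hz.1 (fun h => h2 h.symm) hcon hyz
            exact key x u z hx hu hz.1 h1 h3 huz
        · have h2 : G.Adj x y := by
            by_contra hcon
            exact hG u hu x hx y hy.1 (fun h => h1 h.symm) hcon huy
          have h3 : G.Adj x z := by
            by_contra hcon
            exact hG u hu x hx z hz.1 (fun h => h1 h.symm) hcon huz
          exact key x y z hx hy.1 hz.1 h2 h3 hyz
      constructor
      · have h1 := hall u hu
        have h2 := part_card G S u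
        rw [← hA, ← ha] at h2
        omega
      · have h1 : k * (2 * a) ≤ e2 G S := by
          unfold e2
          rw [← hS, ← smul_eq_mul, ← Finset.sum_const]
          exact Finset.sum_le_sum hall
        rw [he2m] at h1
        nlinarith
  have hnum := num_main ha1 hub hcase
  obtain ⟨P, hP, hPu⟩ := average (H := H) (T := T') (k := k) (m := m) (a := a) hT'
    (fun v hv => hN v hv) hnum
  rw [Finset.mem_powersetCard] at hP
  have hcard : k - a + m' ≤ (unc H T' P).card := by
    have h1 : ((k : ℝ) + m) - a * (k - a + 1) - 1 = (((k - a + m' : ℕ) : ℝ)) - 1 := by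
      obtain ⟨c, hc⟩ := Nat.exists_eq_add_of_le hak
      rw [hm, hc, Nat.add_sub_cancel_left]
      push_cast
      ring
    rw [h1] at hPu
    have h2 : (((k - a + m' : ℕ) : ℝ)) < (((unc H T' P).card + 1 : ℕ) : ℝ) := by
      push_cast at hPu ⊢
      linarith
    have h3 : k - a + m' < (unc H T' P).card + 1 := by exact_mod_cast h2
    omega
  obtain ⟨g, hg1, hg2, hg3⟩ := hIH (unc H T' P) hcard
  obtain ⟨f, hf1, hf2⟩ := exists_inj (S := A) (I := P) (by rw [hP.2])
  have hunc : ∀ v ∈ unc H T' P, v ∈ T' ∧ ∀ p ∈ P, v ≠ p ∧ ¬ H.Adj v p := by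
    intro v hv
    rw [unc, Finset.mem_filter] at hv
    exact hv
  refine ⟨fun x => if x ∈ A then f x else g x, ?_, ?_, ?_⟩
  · intro x hx y hy hxy
    have hx' : x ∈ S := hx
    have hy' : y ∈ S := hy
    by_cases h1 : x ∈ A
    · by_cases h2 : y ∈ A
      · simp only [if_pos h1, if_pos h2] at hxy
        exact hf1 h1 h2 hxy
      · simp only [if_pos h1, if_neg h2] at hxy
        exact absurd hxy.symm ((hunc _ (hg2 y (Finset.mem_sdiff.2 ⟨hy', h2⟩))).2 _ (hf2 x h1)).1
    · by_cases h2 : y ∈ A
      · simp only [if_neg h1, if_pos h2] at hxy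
        exact absurd hxy ((hunc _ (hg2 x (Finset.mem_sdiff.2 ⟨hx', h1⟩))).2 _ (hf2 y h2)).1
      · simp only [if_neg h1, if_neg h2] at hxy
        exact hg1 (Finset.mem_coe.2 (Finset.mem_sdiff.2 ⟨hx', h1⟩))
          (Finset.mem_coe.2 (Finset.mem_sdiff.2 ⟨hy', h2⟩)) hxy
  · intro x hx
    by_cases h1 : x ∈ A
    · simp only [if_pos h1]
      exact hP.1 (hf2 x h1)
    · simp only [if_neg h1]
      exact (hunc _ (hg2 x (Finset.mem_sdiff.2 ⟨hx, h1⟩))).1
  · intro x hx y hy hxy
    by_cases h1 : x ∈ A
    · by_cases h2 : y ∈ A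
      · exact absurd hxy (hAA x h1 y h2)
      · simp only [if_pos h1, if_neg h2]
        intro h3
        exact ((hunc _ (hg2 y (Finset.mem_sdiff.2 ⟨hy, h2⟩))).2 _ (hf2 x h1)).2 h3.symm
    · by_cases h2 : y ∈ A
      · simp only [if_neg h1, if_pos h2]
        exact ((hunc _ (hg2 x (Finset.mem_sdiff.2 ⟨hx, h1⟩))).2 _ (hf2 y h2)).2
      · simp only [if_neg h1, if_neg h2]
        exact hg3 x (Finset.mem_sdiff.2 ⟨hx, h1⟩) y (Finset.mem_sdiff.2 ⟨hy, h2⟩) hxy

/-- disjoint unions -/
theorem good_union {G : SimpleGraph V} {H : SimpleGraph W} [Nonempty W] {S S' : Finset V}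
    (hd : Disjoint S S') (h0 : ∀ x ∈ S, ∀ y ∈ S', ¬ G.Adj x y) (h1 : Good G H S)
    (h2 : Good G H S') : Good G H (S ∪ S') := by
  obtain ⟨m, hm, hE⟩ := h1
  obtain ⟨m', hm', hE'⟩ := h2
  have e1 : ∀ x ∈ S, dg G (S ∪ S') x = dg G S x := by
    intro x hx
    unfold dg
    congr 1
    ext y
    simp only [Finset.mem_filter, Finset.mem_union]
    constructor
    · rintro ⟨h3 | h3, h4⟩
      · exact ⟨h3, h4⟩
      · exact absurd h4 (h0 x hx y h3)
    · rintro ⟨h3, h4⟩
      exact ⟨Or.inl h3, h4⟩
  have e1' : ∀ x ∈ S', dg G (S ∪ S') x = dg G S' x := by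
    intro x hx
    unfold dg
    congr 1
    ext y
    simp only [Finset.mem_filter, Finset.mem_union]
    constructor
    · rintro ⟨h3 | h3, h4⟩
      · exact absurd h4.symm (h0 y h3 x hx)
      · exact ⟨h3, h4⟩
    · rintro ⟨h3, h4⟩
      exact ⟨Or.inr h3, h4⟩
  refine ⟨m + m', ?_, fun T hT => ?_⟩
  · unfold e2
    rw [Finset.sum_union hd, Finset.sum_congr rfl e1, Finset.sum_congr rfl e1']
    have h3 : e2 G S + e2 G S' = 2 * (m + m') := by rw [hm, hm']; ring
    exact h3
  · rw [Finset.card_union_of_disjoint hd] at hT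
    obtain ⟨f, hf1, hf2, hf3⟩ := hE T (by omega)
    have hc : (S.image f).card = S.card := Finset.card_image_of_injOn hf1
    have hc' : (T \ S.image f).card = T.card - S.card := by
      rw [Finset.card_sdiff_of_subset, hc]
      intro y hy
      obtain ⟨x, hx, rfl⟩ := Finset.mem_image.1 hy
      exact hf2 x hx
    obtain ⟨g, hg1, hg2, hg3⟩ := hE' (T \ S.image f) (by omega)
    have hfg : ∀ x ∈ S, ∀ y ∈ S', f x ≠ g y := by
      intro x hx y hy h
      exact (Finset.mem_sdiff.1 (hg2 y hy)).2 (h ▸ Finset.mem_image_of_mem f hx)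
    have hnot : ∀ y ∈ S', y ∉ S := fun y hy hy' => Finset.disjoint_left.1 hd hy' hy
    refine ⟨fun x => if x ∈ S then f x else g x, ?_, ?_, ?_⟩
    · intro x hx y hy hxy
      have hx' : x ∈ S ∪ S' := hx
      have hy' : y ∈ S ∪ S' := hy
      rw [Finset.mem_union] at hx' hy'
      rcases hx' with h3 | h3 <;> rcases hy' with h4 | h4
      · simp only [if_pos h3, if_pos h4] at hxy
        exact hf1 h3 h4 hxy
      · simp only [if_pos h3, if_neg (hnot y h4)] at hxy
        exact absurd hxy (hfg x h3 y h4)
      · simp only [if_neg (hnot x h3), if_pos h4] at hxy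
        exact absurd hxy.symm (hfg y h4 x h3)
      · simp only [if_neg (hnot x h3), if_neg (hnot y h4)] at hxy
        exact hg1 h3 h4 hxy
    · intro x hx
      rcases Finset.mem_union.1 hx with h3 | h3
      · simp only [if_pos h3]
        exact hf2 x h3
      · simp only [if_neg (hnot x h3)]
        exact (Finset.mem_sdiff.1 (hg2 x h3)).1
    · intro x hx y hy hxy
      rcases Finset.mem_union.1 hx with h3 | h3 <;> rcases Finset.mem_union.1 hy with h4 | h4
      · simp only [if_pos h3, if_pos h4]
        exact hf3 x h3 y h4 hxy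
      · exact absurd hxy (h0 x h3 y h4)
      · exact absurd hxy.symm (h0 y h4 x h3)
      · simp only [if_neg (hnot x h3), if_neg (hnot y h4)]
        exact hg3 x h3 y h4 hxy

/-- all components complete multipartite -/
theorem good_univ [Fintype V] {G : SimpleGraph V} {H : SimpleGraph W} [Nonempty W]
    (hG : ∀ c : G.ConnectedComponent, (G.induce c.supp).IsCompleteMultipartite)
    (hH : ∀ a b c, H.Adj a b → H.Adj b c → ¬ H.Adj a c) : Good G H univ := by
  have key : ∀ K : Finset G.ConnectedComponent,
      Good G H (univ.filter (fun v => G.connectedComponentMk v ∈ K)) := by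
    intro K
    induction K using Finset.induction_on with
    | empty =>
      simp only [Finset.notMem_empty, Finset.filter_false]
      exact main hH 0 ∅ (by simp) (by simp)
    | insert c K hc ih =>
      have e1 : univ.filter (fun v => G.connectedComponentMk v ∈ insert c K) =
          univ.filter (fun v => G.connectedComponentMk v = c) ∪
            univ.filter (fun v => G.connectedComponentMk v ∈ K) := by
        ext v
        simp
      rw [e1]
      refine good_union ?_ ?_ ?_ ih
      · rw [Finset.disjoint_left]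
        intro v hv hv'
        rw [Finset.mem_filter] at hv hv'
        exact hc (hv.2 ▸ hv'.2)
      · intro x hx y hy hxy
        rw [Finset.mem_filter] at hx hy
        have h1 : G.connectedComponentMk x = G.connectedComponentMk y :=
          SimpleGraph.ConnectedComponent.connectedComponentMk_eq_of_adj hxy
        exact hc (by rw [← hx.2, h1]; exact hy.2)
      · refine main hH _ _ rfl ?_
        intro x hx y hy z hz hxy hyz
        rw [Finset.mem_filter] at hx hy hz
        have h1 := (hG c).trans ⟨x, hx.2⟩ ⟨y, hy.2⟩ ⟨z, hz.2⟩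
        exact h1 hxy hyz
  have h := key univ
  simpa using h

end Pool.Agent.Lib_helper62.CMP
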