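import Mathlib
import Pool.Agent.Lib_helper62.CMP.Graph

/-!
# Sidorenko's inequality `R(3,G) ≤ k + m` for complete multipartite graphs

Let `G` be a complete multipartite graph with `k` vertices and `m` edges whose smallest part `A` has
`a` vertices, and `H` a triangle-free graph on `n = k + m` vertices. If a vertex of `H` has at least
`k` neighbours, `G` is placed into its (independent) neighbourhood. Otherwise every vertex has at
most `k - 1` neighbours. Averaging over the sets `P` of `a` vertices of `H` (`average`) one finds a
set `P` such that at least `n - a (k - a + 1)` vertices are neither in `P` nor adjacent to an element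
of `P`; this needs the inequality `num_main`

`(n - a (k - a + 1) - 1) C(n, a) < n C(m, a)`,

proved from the third Bonferroni inequality and, for two large parts, from `(s + 2)^s ≤ s^(s + 1)`.
The part `A` is placed on `P` and the rest of `G`, with `k - a` vertices and `m - a (k - a)` edges, by
induction on the other vertices (`main`). Disjoint unions: `good_union`.
-/

set_option autoImplicit false

namespace Pool.Agent.Lib_helper62.CMP.Preview

open Finset Classical Pool.Agent.Lib_helper62.CMP

theorem e2_univ {V : Type} [Fintype V] (G : SimpleGraph V) :
    e2 G univ = 2 * G.edgeSet.ncard := by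
  have h1 := G.sum_degrees_eq_twice_card_edges
  have h2 : G.edgeSet.ncard = G.edgeFinset.card := by
    rw [← SimpleGraph.coe_edgeFinset, Set.ncard_coe_finset]
  rw [h2, ← h1]
  unfold e2
  refine Finset.sum_congr rfl (fun x _ => ?_)
  rw [← SimpleGraph.card_neighborFinset_eq_degree]
  unfold dg
  congr 1
  ext y
  simp

/-- Sidorenko's inequality `R(3,G) ≤ k + m` for every graph `G` all of whose connected components are
complete multipartite, in particular for all complete multipartite graphs. -/
theorem result (V : Type) [Fintype V] (G : SimpleGraph V)
    (hG : ∀ c : G.ConnectedComponent, (G.induce c.supp).IsCompleteMultipartite) :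
    ∀ H : SimpleGraph (Fin (Fintype.card V + G.edgeSet.ncard)),
      ¬ H.CliqueFree 3 ∨ ∃ f : G →g Hᶜ, Function.Injective f := by
  intro H
  by_cases hH : H.CliqueFree 3
  · right
    by_cases hV : IsEmpty V
    · exact ⟨⟨fun v => (hV.false v).elim, fun {a} => (hV.false a).elim⟩,
        fun a => (hV.false a).elim⟩
    · rw [not_isEmpty_iff] at hV
      have hpos : 0 < Fintype.card V := Fintype.card_pos
      have : Nonempty (Fin (Fintype.card V + G.edgeSet.ncard)) := ⟨⟨0, by omega⟩⟩
      obtain ⟨m, hm, hE⟩ := good_univ (H := H) hG
        (fun a b c hab hbc hac => by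
          exact hH {a, b, c} (SimpleGraph.is3Clique_iff.2 ⟨a, b, c, hab, hac, hbc, rfl⟩))
      rw [e2_univ] at hm
      obtain ⟨f, hf1, -, hf3⟩ := hE univ (by
        rw [card_univ, card_univ, Fintype.card_fin]
        omega)
      have hinj : Function.Injective f := by
        intro x y hxy
        exact hf1 (by simp) (by simp) hxy
      refine ⟨⟨f, ?_⟩, hinj⟩
      intro a b hab
      rw [SimpleGraph.compl_adj]
      exact ⟨fun h => hab.ne (hinj h), hf3 a (mem_univ _) b (mem_univ _) hab⟩
  · exact Or.inl hH

end Pool.Agent.Lib_helper62.CMP.Preview
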